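import Pool.Agent.Y957.MC.Spec3
import Pool.Agent.Y312.MC.Flw3
import Pool.Agent.Y957.MC.Flw1
import Pool.Agent.Y614.MC.Expg
import Pool.Agent.Y571.MC.Goodg
import Pool.Agent.Y571.MC.Poly

/-!
MC3-MUL (helper858 for helper957, MP_9721b5_an): several flows with a common time parameter, smoothing and error
control.
-/

set_option autoImplicit false

namespace Pool.Agent.Y858.MC

open MeasureTheory Filter Finset Pool.Agent.Y957.MC
open Pool.Agent.Y312.MC (meas_orb ii_orb smo_meas smo_bdd int_bdd smo_shift smo_L1 flowInv_le)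

universe u

lemma good_id : Good (fun n : ℕ => (n : ℝ)) := by
  have h := Pool.Agent.Y571.MC.goodg Pool.Agent.Y614.MC.expg _ (Pool.Agent.Y571.MC.pow 1 one_pos)
  simpa using h

/-- a flow run with speed `c` -/
lemma isFlow_mul {X : Type u} [MeasurableSpace X] {μ : Measure X} {τ : ℝ → X → X} (h : IsFlow μ τ) (c : ℝ) :
    IsFlow μ (fun t => τ (c * t)) := by
  refine ⟨?_, fun x => by simp [h.zero], fun s t x => ?_, fun t => h.mp (c * t)⟩
  · exact h.meas.comp ((measurable_fst.const_mul c).prodMk measurable_snd)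
  · simp only [mul_add]
    exact h.add _ _ _

lemma prod_bd {ι : Type*} (s : Finset ι) (v : ι → ℝ) {C : ℝ} (hv : ∀ j, |v j| ≤ C) :
    |∏ j ∈ s, v j| ≤ C ^ s.card := by
  rw [Finset.abs_prod, ← Finset.prod_const]
  exact Finset.prod_le_prod (fun j _ => abs_nonneg _) fun j _ => hv j

lemma prod_diff {ι : Type*} (s : Finset ι) (u v : ι → ℝ) {C : ℝ} (hC : 1 ≤ C) (hu : ∀ j, |u j| ≤ C)
    (hv : ∀ j, |v j| ≤ C) : |∏ j ∈ s, u j - ∏ j ∈ s, v j| ≤ C ^ s.card * ∑ j ∈ s, |u j - v j| := by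
  classical
  have hC0 : 0 ≤ C := by linarith
  induction s using Finset.induction_on with
  | empty => simp
  | insert a s ha ih =>
    rw [prod_insert ha, prod_insert ha, sum_insert ha, card_insert_of_notMem ha]
    have e : u a * ∏ j ∈ s, u j - v a * ∏ j ∈ s, v j =
        u a * (∏ j ∈ s, u j - ∏ j ∈ s, v j) + (u a - v a) * ∏ j ∈ s, v j := by ring
    rw [e]
    have h1 : |u a * (∏ j ∈ s, u j - ∏ j ∈ s, v j)| ≤ C * (C ^ s.card * ∑ j ∈ s, |u j - v j|) := by
      rw [abs_mul]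
      exact mul_le_mul (hu a) ih (abs_nonneg _) hC0
    have h2 : |(u a - v a) * ∏ j ∈ s, v j| ≤ |u a - v a| * C ^ (s.card + 1) := by
      rw [abs_mul]
      refine mul_le_mul_of_nonneg_left ((prod_bd s v hv).trans ?_) (abs_nonneg _)
      exact pow_le_pow_right₀ hC (Nat.le_succ _)
    calc _ ≤ _ := abs_add_le _ _
      _ ≤ C * (C ^ s.card * ∑ j ∈ s, |u j - v j|) + |u a - v a| * C ^ (s.card + 1) := add_le_add h1 h2
      _ = _ := by ring

/-- one bounded Lipschitz function -/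
lemma core (h1 : S_DET) (h2 : S_RIE) {B : ℕ → ℂ} {b : ℂ} (hB : PSav B b) (hBb : ∃ C : ℝ, ∀ n, ‖B n‖ ≤ C)
    {F : ℝ → ℝ} {D L : ℝ} (hD : 0 < D) (hF : ∀ v, |F v| ≤ D) (hL : ∀ v w, |F v - F w| ≤ L * |v - w|) :
    ∀ᵐ a : ℝ ∂(volume.restrict (Set.Ioi (0 : ℝ))),
      Tendsto (fun N : ℕ => (1 / (N : ℂ)) * ∑ n ∈ Icc 1 N, B n * ((F (a * n) : ℝ) : ℂ) -
        b * (((1 / (a * N)) * ∫ v in (0 : ℝ)..(a * N), F v : ℝ) : ℂ)) atTop (nhds 0) := by
  have hL0 : 0 ≤ L := by
    have := (abs_nonneg _).trans (hL 1 0)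
    simpa using this
  have hFc : Continuous F := by
    have : LipschitzWith ⟨L, hL0⟩ F := LipschitzWith.of_dist_le_mul fun v w => by
      rw [Real.dist_eq, Real.dist_eq]
      exact hL v w
    exact this.continuous
  set G : ℝ → ℂ := fun v => ((F v / D : ℝ) : ℂ) with hG
  have hGm : Measurable G := Complex.measurable_ofReal.comp (hFc.measurable.div_const D)
  have hGb : ∀ v, ‖G v‖ ≤ 1 := by
    intro v
    simp only [hG]
    rw [Complex.norm_real, Real.norm_eq_abs, abs_div, abs_of_pos hD, div_le_one hD]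
    exact hF v
  have hGl : ∀ v w, ‖G v - G w‖ ≤ L / D * |v - w| := by
    intro v w
    have e1 : G v - G w = (((F v - F w) / D : ℝ) : ℂ) := by simp only [hG]; push_cast; ring
    rw [e1, Complex.norm_real, Real.norm_eq_abs, abs_div, abs_of_pos hD]
    calc |F v - F w| / D ≤ (L * |v - w|) / D := by
          gcongr
          exact hL v w
      _ = _ := by ring
  have hmod : ∀ Λ : ℝ, 1 ≤ Λ → ∃ C : ℝ, ∀ M : ℝ, 1 ≤ M → Mod Λ G C M := by
    intro Λ hΛ
    refine ⟨L / D * (2 * Real.exp Λ) * Λ, fun M hM t ht0 ht1 => ?_⟩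
    have h1 : ‖∫ s in (0 : ℝ)..Λ, ‖G (M * Real.exp (s + t)) - G (M * Real.exp s)‖‖ ≤
        (L / D * (2 * Real.exp Λ) * M * t) * |Λ - 0| := by
      refine intervalIntegral.norm_integral_le_of_norm_le_const fun s hs => ?_
      rw [Set.uIoc_of_le (by linarith)] at hs
      rw [norm_norm]
      have h3 : |M * Real.exp (s + t) - M * Real.exp s| ≤ M * Real.exp Λ * (2 * t) := by
        have e2 : M * Real.exp (s + t) - M * Real.exp s = M * Real.exp s * (Real.exp t - 1) := by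
          rw [Real.exp_add]; ring
        have h4 : Real.exp t - 1 ≤ 2 * t := by
          have h5 : |Real.exp t - 1 - t| ≤ t ^ 2 :=
            Real.abs_exp_sub_one_sub_id_le (by rw [abs_of_pos ht0]; exact ht1)
          have h6 := (abs_le.mp h5).2
          nlinarith
        have h5 : 0 ≤ Real.exp t - 1 := by
          have := Real.add_one_le_exp t; linarith
        rw [e2, abs_of_nonneg (by positivity)]
        have h6 : Real.exp s ≤ Real.exp Λ := Real.exp_le_exp.mpr hs.2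
        gcongr
      calc _ ≤ L / D * |M * Real.exp (s + t) - M * Real.exp s| := hGl _ _
        _ ≤ L / D * (M * Real.exp Λ * (2 * t)) := by gcongr
        _ = _ := by ring
    rw [sub_zero, abs_of_pos (by linarith : 0 < Λ)] at h1
    calc _ ≤ ‖∫ s in (0 : ℝ)..Λ, ‖G (M * Real.exp (s + t)) - G (M * Real.exp s)‖‖ := Real.le_norm_self _
      _ ≤ _ := h1
      _ = _ := by ring
  filter_upwards [h1 B b hB hBb G hGm hGb hmod, h2 G (L / D) hGb hGl] with a ha1 ha2
  have h3 := (ha1.add (ha2.const_mul b)).const_mul (D : ℂ)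
  rw [mul_zero, add_zero, mul_zero] at h3
  refine h3.congr fun N => ?_
  have hDc : (D : ℂ) ≠ 0 := by exact_mod_cast hD.ne'
  have e1 : ∫ v in (0 : ℝ)..(a * N), G v = (((∫ v in (0 : ℝ)..(a * N), F v) / D : ℝ) : ℂ) := by
    simp only [hG]
    rw [intervalIntegral.integral_ofReal, intervalIntegral.integral_div]
  have e2 : ∑ n ∈ Icc 1 N, (B n - b) * G (a * n) =
      (∑ n ∈ Icc 1 N, B n * ((F (a * n) : ℝ) : ℂ)) / D - b * ∑ n ∈ Icc 1 N, G (a * n) := by
    rw [Finset.mul_sum, Finset.sum_div, ← Finset.sum_sub_distrib]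
    refine Finset.sum_congr rfl fun n _ => ?_
    simp only [hG]
    push_cast
    field_simp
  rw [e1, e2]
  push_cast
  field_simp
  ring

theorem mul (h1 : S_DET) (h2 : S_RIE) (h3 : S_FLW2.{u}) (h4 : S_FLWB.{u}) : S_MUL.{u} := by
  intro B b hB hBb X mX μ _ m τ c f hτ _ hf hfb
  set σ : Fin m → ℝ → X → X := fun j t => τ j (c j * t) with hσ
  have hσf : ∀ j, IsFlow μ (σ j) := fun j => isFlow_mul (hτ j) (c j)
  have hBb' := hBb
  obtain ⟨C', hC'⟩ := hfb
  obtain ⟨A', hA'⟩ := hBb'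
  set C : ℝ := |C'| + 1 with hCdef
  have hC1 : 1 ≤ C := by have := abs_nonneg C'; linarith
  have hC0 : 0 < C := by linarith
  have hC : ∀ j x, |f j x| ≤ C := fun j x => (hC' j x).trans ((le_abs_self _).trans (by linarith))
  set A : ℝ := |A'| + 1 with hAdef
  have hA0 : 0 < A := by positivity
  have hA : ∀ n, ‖B n‖ ≤ A := fun n => (hA' n).trans ((le_abs_self _).trans (by linarith))
  obtain ⟨K, hK, hE⟩ := h3 _ good_id
  have hpos : ∀ i : ℕ, 0 < 1 / ((i : ℝ) + 1) := fun i => by positivity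
  set g : ℕ → Fin m → X → ℝ := fun i j => smo (σ j) (f j) (1 / ((i : ℝ) + 1)) with hg
  have hgm : ∀ i j, Measurable (g i j) := fun i j => smo_meas (hσf j) (hf j) (hpos i)
  have hgb : ∀ i j x, |g i j x| ≤ C := fun i j x => smo_bdd (hC j) (hpos i) x
  set e : ℕ → Fin m → X → ℝ := fun i j x => |f j x - g i j x| / (2 * C) with he
  have hem : ∀ i j, Measurable (e i j) := fun i j => ((hf j).sub (hgm i j)).abs.div_const _
  have heb : ∀ i j x, 0 ≤ e i j x ∧ e i j x ≤ 1 := by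
    intro i j x
    refine ⟨by positivity, ?_⟩
    simp only [he]
    rw [div_le_one (by positivity)]
    exact (abs_sub _ _).trans (by linarith [hC j x, hgb i j x])
  have heb' : ∀ i j x, |e i j x| ≤ 1 := fun i j x => by
    rw [abs_of_nonneg (heb i j x).1]; exact (heb i j x).2
  have heint : Tendsto (fun i => ∑ j, ∫ x, e i j x ∂μ) atTop (nhds 0) := by
    have h5 : ∀ j, Tendsto (fun i => ∫ x, e i j x ∂μ) atTop (nhds 0) := fun j => by
      have h6 := (smo_L1 (hσf j) (hf j) (hC j) (μ := μ)).div_const (2 * C)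
      rw [zero_div] at h6
      refine h6.congr fun i => ?_
      simp only [he, hg]
      rw [integral_div]
    simpa using tendsto_finsetSum univ fun j _ => h5 j
  -- the sum of the conditional expectations of the errors
  set ψ : ℕ → X → ℝ := fun i x => ∑ j, (μ[e i j | flowInv (σ j)]) x with hψ
  have hcn : ∀ᵐ x ∂μ, ∀ i j, 0 ≤ (μ[e i j | flowInv (σ j)]) x := by
    rw [ae_all_iff]
    intro i
    rw [ae_all_iff]
    intro j
    exact condExp_nonneg (ae_of_all _ fun x => (heb i j x).1)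
  have hψi : ∀ i, Integrable (ψ i) μ := fun i => integrable_finsetSum _ fun j _ => integrable_condExp
  have hψint : ∀ i, ∫ x, ψ i x ∂μ = ∑ j, ∫ x, e i j x ∂μ := by
    intro i
    simp only [hψ]
    rw [integral_finsetSum _ fun j _ => integrable_condExp]
    exact Finset.sum_congr rfl fun j _ => integral_condExp (flowInv_le (mX := mX) (σ j))
  have hinf : ∀ᵐ x ∂μ, ∀ k : ℕ, ∃ i, ψ i x < 1 / ((k : ℝ) + 1) := by
    rw [ae_all_iff]
    intro k
    have hk : 0 < 1 / ((k : ℝ) + 1) := hpos k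
    have hmk : ∀ i, 1 / ((k : ℝ) + 1) * μ.real {x | 1 / ((k : ℝ) + 1) ≤ ψ i x} ≤ ∑ j, ∫ x, e i j x ∂μ := by
      intro i
      have e1 : 0 ≤ᵐ[μ] ψ i := by
        filter_upwards [hcn] with x hx
        exact Finset.sum_nonneg fun j _ => hx i j
      have e2 := mul_meas_ge_le_integral_of_nonneg e1 (hψi i) (1 / ((k : ℝ) + 1))
      rwa [hψint i] at e2
    have hbad : μ.real {x | ¬ ∃ i, ψ i x < 1 / ((k : ℝ) + 1)} ≤ 0 := by
      have e3 : ∀ i, 1 / ((k : ℝ) + 1) * μ.real {x | ¬ ∃ i, ψ i x < 1 / ((k : ℝ) + 1)} ≤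
          ∑ j, ∫ x, e i j x ∂μ := by
        intro i
        refine le_trans (mul_le_mul_of_nonneg_left ?_ hk.le) (hmk i)
        refine measureReal_mono ?_ (measure_ne_top _ _)
        intro x hx
        simp only [Set.mem_ofPred_eq, not_exists, not_lt] at hx ⊢
        exact hx i
      have e4 := ge_of_tendsto' heint e3
      nlinarith
    have : μ {x | ¬ ∃ i, ψ i x < 1 / ((k : ℝ) + 1)} = 0 := by
      have e5 := le_antisymm hbad measureReal_nonneg
      rwa [measureReal_eq_zero_iff] at e5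
    exact this
  have her : ∀ᵐ x ∂μ, ∀ i j, ∀ᵐ a : ℝ ∂(volume.restrict (Set.Ioi (0 : ℝ))), ∀ ε : ℝ, 0 < ε →
      ∀ᶠ N : ℕ in atTop, (1 / (N : ℝ)) * ∑ n ∈ Icc 1 N, e i j (σ j (a * n) x) ≤
        ε + K ε * (μ[e i j | flowInv (σ j)]) x := by
    rw [ae_all_iff]
    intro i
    rw [ae_all_iff]
    intro j
    exact hE X μ (σ j) (e i j) (hσf j) (hem i j) (heb i j)
  have hcon : ∀ᵐ x ∂μ, ∀ i j, Tendsto (fun V : ℝ => smo (σ j) (e i j) V x) atTop
      (nhds ((μ[e i j | flowInv (σ j)]) x)) := by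
    rw [ae_all_iff]
    intro i
    rw [ae_all_iff]
    intro j
    exact h4 X μ (σ j) (e i j) (hσf j) (hem i j) ⟨1, heb' i j⟩
  filter_upwards [hcn, hinf, her, hcon] with x hx1 hx2 hx3 hx4
  -- the two products along the orbit
  set P : ℝ → ℝ := fun v => ∏ j, f j (σ j v x) with hP
  set Q : ℕ → ℝ → ℝ := fun i v => ∏ j, g i j (σ j v x) with hQ
  have hPm : Measurable P := Finset.measurable_prod _ fun j _ => meas_orb (hσf j) (hf j) x
  have hQm : ∀ i, Measurable (Q i) := fun i => Finset.measurable_prod _ fun j _ => meas_orb (hσf j) (hgm i j) x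
  have hPb : ∀ v, |P v| ≤ C ^ m := fun v => by
    have := prod_bd univ (fun j => f j (σ j v x)) (C := C) fun j => hC j _
    simpa using this
  have hQb : ∀ i v, |Q i v| ≤ C ^ m := fun i v => by
    have := prod_bd univ (fun j => g i j (σ j v x)) (C := C) fun j => hgb i j _
    simpa using this
  have hQl : ∀ i v w, |Q i v - Q i w| ≤ (C ^ m * (m * (2 * C / (1 / ((i : ℝ) + 1))))) * |v - w| := by
    intro i v w
    have h5 := prod_diff univ (fun j => g i j (σ j v x)) (fun j => g i j (σ j w x)) hC1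
      (fun j => hgb i j _) (fun j => hgb i j _)
    have h6 : ∑ j : Fin m, |g i j (σ j v x) - g i j (σ j w x)| ≤
        ∑ _j : Fin m, 2 * C / (1 / ((i : ℝ) + 1)) * |v - w| :=
      Finset.sum_le_sum fun j _ => smo_lip (hσf j) (hf j) (hC j) (hpos i) x v w
    rw [Finset.card_univ, Fintype.card_fin] at h5
    rw [Finset.sum_const, Finset.card_univ, Fintype.card_fin, nsmul_eq_mul] at h6
    calc |Q i v - Q i w| ≤ C ^ m * ∑ j : Fin m, |g i j (σ j v x) - g i j (σ j w x)| := h5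
      _ ≤ C ^ m * (m * (2 * C / (1 / ((i : ℝ) + 1)) * |v - w|)) := by gcongr
      _ = _ := by ring
  set W : ℝ := C ^ m * (2 * C) with hW
  have hW0 : 0 < W := by positivity
  have hdiff : ∀ i v, |P v - Q i v| ≤ W * ∑ j, e i j (σ j v x) := by
    intro i v
    have h5 := prod_diff univ (fun j => f j (σ j v x)) (fun j => g i j (σ j v x)) hC1
      (fun j => hC j _) (fun j => hgb i j _)
    rw [Finset.card_univ, Fintype.card_fin] at h5
    refine h5.trans (le_of_eq ?_)
    rw [hW, mul_assoc, Finset.mul_sum univ _ (2 * C)]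
    congr 1
    refine Finset.sum_congr rfl fun j _ => ?_
    simp only [he]
    field_simp
  have hcore : ∀ i, ∀ᵐ a : ℝ ∂(volume.restrict (Set.Ioi (0 : ℝ))),
      Tendsto (fun N : ℕ => (1 / (N : ℂ)) * ∑ n ∈ Icc 1 N, B n * ((Q i (a * n) : ℝ) : ℂ) -
        b * (((1 / (a * N)) * ∫ v in (0 : ℝ)..(a * N), Q i v : ℝ) : ℂ)) atTop (nhds 0) := fun i =>
    core h1 h2 hB hBb (pow_pos hC0 m) (hQb i) (hQl i)
  have h5 := ae_all_iff.2 hcore
  have h6 : ∀ᵐ a : ℝ ∂(volume.restrict (Set.Ioi (0 : ℝ))), ∀ i j, ∀ ε : ℝ, 0 < ε →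
      ∀ᶠ N : ℕ in atTop, (1 / (N : ℝ)) * ∑ n ∈ Icc 1 N, e i j (σ j (a * n) x) ≤
        ε + K ε * (μ[e i j | flowInv (σ j)]) x := by
    rw [ae_all_iff]
    intro i
    rw [ae_all_iff]
    intro j
    exact hx3 i j
  filter_upwards [h5, h6, ae_restrict_mem measurableSet_Ioi] with a ha5 ha6 ha0
  have ha0' : 0 < a := ha0
  rw [Metric.tendsto_nhds]
  intro ε' hε'
  set b' : ℝ := ‖b‖ with hb'
  have hb0 : 0 ≤ b' := norm_nonneg _
  set ε : ℝ := ε' / (4 * ((A + b') * W * (m + 1))) with hε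
  have hε0 : 0 < ε := by positivity
  have hKe := hK ε
  obtain ⟨k, hk⟩ := exists_nat_one_div_lt (show 0 < ε' / (4 * ((A * K ε + b') * W + 1)) by positivity)
  obtain ⟨i, hi⟩ := hx2 k
  have hψ0 : 0 ≤ ψ i x := Finset.sum_nonneg fun j _ => hx1 i j
  have hi' : (A * K ε + b') * W * ψ i x ≤ ε' / 4 := by
    have h7 : ψ i x < ε' / (4 * ((A * K ε + b') * W + 1)) := hi.trans hk
    rw [lt_div_iff₀ (by positivity)] at h7
    nlinarith
  have hε1 : (A + b') * W * (m * ε) ≤ ε' / 4 := by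
    have h7 : (A + b') * W * ((m + 1) * ε) = ε' / 4 := by
      rw [hε]; field_simp
    have h8 : (A + b') * W * (m * ε) ≤ (A + b') * W * ((m + 1) * ε) := by
      gcongr
      linarith
    linarith
  have hNa : Tendsto (fun N : ℕ => a * (N : ℝ)) atTop atTop :=
    Tendsto.const_mul_atTop ha0' tendsto_natCast_atTop_atTop
  have hev1 := (Metric.tendsto_nhds.1 (ha5 i)) (ε' / 4) (by positivity)
  have hev2 : ∀ᶠ N : ℕ in atTop, ∀ j, (1 / (N : ℝ)) * ∑ n ∈ Icc 1 N, e i j (σ j (a * n) x) ≤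
        ε + K ε * (μ[e i j | flowInv (σ j)]) x := by
    rw [eventually_all]
    intro j
    exact ha6 i j ε hε0
  have hev3 : ∀ᶠ N : ℕ in atTop, ∀ j, smo (σ j) (e i j) (a * N) x ≤ (μ[e i j | flowInv (σ j)]) x + ε := by
    rw [eventually_all]
    intro j
    have h7 := ((hx4 i j).comp hNa).eventually (gt_mem_nhds (lt_add_of_pos_right _ hε0))
    filter_upwards [h7] with N hN
    exact hN.le
  filter_upwards [hev1, hev2, hev3, eventually_ge_atTop 1] with N hN1 hN2 hN3 hN4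
  rw [dist_zero_right] at hN1 ⊢
  have hN0 : (0 : ℝ) < N := by exact_mod_cast hN4
  have haN : 0 < a * N := by positivity
  change ‖(1 / (N : ℂ)) * ∑ n ∈ Icc 1 N, B n * ((∏ j, f j (τ j (c j * (a * n)) x) : ℝ) : ℂ) -
        b * (((1 / (a * N)) * ∫ v in (0 : ℝ)..(a * N), ∏ j, f j (τ j (c j * v) x) : ℝ) : ℂ)‖ < ε'
  have eP : ∀ v, ∏ j, f j (τ j (c j * v) x) = P v := fun v => rfl
  simp only [eP]
  have iP : IntervalIntegrable P volume 0 (a * N) := by
    refine (intervalIntegrable_const (c := C ^ m)).mono_fun' hPm.aestronglyMeasurable ?_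
    exact ae_of_all _ fun v => hPb v
  have iQ : IntervalIntegrable (Q i) volume 0 (a * N) := by
    refine (intervalIntegrable_const (c := C ^ m)).mono_fun' (hQm i).aestronglyMeasurable ?_
    exact ae_of_all _ fun v => hQb i v
  have ie : ∀ j, IntervalIntegrable (fun v => e i j (σ j v x)) volume 0 (a * N) := fun j =>
    ii_orb (hσf j) (hem i j) (heb' i j) x _ _
  have hsplit : (1 / (N : ℂ)) * ∑ n ∈ Icc 1 N, B n * ((P (a * n) : ℝ) : ℂ) -
        b * (((1 / (a * N)) * ∫ v in (0 : ℝ)..(a * N), P v : ℝ) : ℂ) =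
      ((1 / (N : ℂ)) * ∑ n ∈ Icc 1 N, B n * ((Q i (a * n) : ℝ) : ℂ) -
        b * (((1 / (a * N)) * ∫ v in (0 : ℝ)..(a * N), Q i v : ℝ) : ℂ)) +
      ((1 / (N : ℂ)) * ∑ n ∈ Icc 1 N, B n * ((P (a * n) - Q i (a * n) : ℝ) : ℂ) -
        b * (((1 / (a * N)) * ∫ v in (0 : ℝ)..(a * N), (P v - Q i v) : ℝ) : ℂ)) := by
    rw [intervalIntegral.integral_sub iP iQ]
    have e1 : ∑ n ∈ Icc 1 N, B n * ((P (a * n) - Q i (a * n) : ℝ) : ℂ) =
        ∑ n ∈ Icc 1 N, B n * ((P (a * n) : ℝ) : ℂ) - ∑ n ∈ Icc 1 N, B n * ((Q i (a * n) : ℝ) : ℂ) := by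
      rw [← Finset.sum_sub_distrib]
      refine Finset.sum_congr rfl fun n _ => ?_
      push_cast
      ring
    rw [e1]
    push_cast
    ring
  rw [hsplit]
  refine (norm_add_le _ _).trans_lt ?_
  have hd1 : ‖(1 / (N : ℂ)) * ∑ n ∈ Icc 1 N, B n * ((P (a * n) - Q i (a * n) : ℝ) : ℂ)‖ ≤
      A * (W * ∑ j, (ε + K ε * (μ[e i j | flowInv (σ j)]) x)) := by
    rw [norm_mul]
    have : ‖(1 / (N : ℂ))‖ = 1 / (N : ℝ) := by simp
    rw [this]
    calc _ ≤ 1 / (N : ℝ) * ∑ n ∈ Icc 1 N, A * (W * ∑ j, e i j (σ j (a * n) x)) := by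
          refine mul_le_mul_of_nonneg_left ?_ (by positivity)
          refine (norm_sum_le _ _).trans (Finset.sum_le_sum fun n _ => ?_)
          rw [norm_mul, Complex.norm_real]
          exact mul_le_mul (hA n) (hdiff i _) (norm_nonneg _) hA0.le
      _ = A * (W * ∑ j, (1 / (N : ℝ) * ∑ n ∈ Icc 1 N, e i j (σ j (a * n) x))) := by
          rw [← Finset.mul_sum, ← Finset.mul_sum, Finset.sum_comm, ← Finset.mul_sum]
          ring
      _ ≤ _ := by
          refine mul_le_mul_of_nonneg_left (mul_le_mul_of_nonneg_left ?_ hW0.le) hA0.le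
          exact Finset.sum_le_sum fun j _ => hN2 j
  have hd2 : ‖b * (((1 / (a * N)) * ∫ v in (0 : ℝ)..(a * N), (P v - Q i v) : ℝ) : ℂ)‖ ≤
      b' * (W * ∑ j, ((μ[e i j | flowInv (σ j)]) x + ε)) := by
    rw [norm_mul, Complex.norm_real, Real.norm_eq_abs, abs_mul, abs_of_pos (by positivity : 0 < 1 / (a * N))]
    refine mul_le_mul_of_nonneg_left ?_ hb0
    have h7 : |∫ v in (0 : ℝ)..(a * N), (P v - Q i v)| ≤ ∫ v in (0 : ℝ)..(a * N), W * ∑ j, e i j (σ j v x) := by
      refine (intervalIntegral.abs_integral_le_integral_abs haN.le).trans ?_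
      refine intervalIntegral.integral_mono_on haN.le (iP.sub iQ).abs ?_ fun v _ => hdiff i v
      have h9 := (IntervalIntegrable.sum univ (f := fun j v => e i j (σ j v x)) fun j _ => ie j).const_mul W
      simpa only [Finset.sum_apply] using h9
    have h8 : ∫ v in (0 : ℝ)..(a * N), W * ∑ j, e i j (σ j v x) =
        W * ∑ j, ∫ v in (0 : ℝ)..(a * N), e i j (σ j v x) := by
      rw [intervalIntegral.integral_const_mul, intervalIntegral.integral_finsetSum fun j _ => ie j]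
    calc 1 / (a * N) * |∫ v in (0 : ℝ)..(a * N), (P v - Q i v)| ≤
          1 / (a * N) * (W * ∑ j, ∫ v in (0 : ℝ)..(a * N), e i j (σ j v x)) := by
          rw [← h8]; gcongr
      _ = W * ∑ j, smo (σ j) (e i j) (a * N) x := by
          unfold smo
          rw [← Finset.mul_sum]
          ring
      _ ≤ _ := by
          refine mul_le_mul_of_nonneg_left ?_ hW0.le
          exact Finset.sum_le_sum fun j _ => hN3 j
  have hs1 : ∑ j : Fin m, (ε + K ε * (μ[e i j | flowInv (σ j)]) x) = m * ε + K ε * ψ i x := by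
    rw [Finset.sum_add_distrib, ← Finset.mul_sum]
    simp [hψ]
  have hs2 : ∑ j : Fin m, ((μ[e i j | flowInv (σ j)]) x + ε) = ψ i x + m * ε := by
    rw [Finset.sum_add_distrib]
    simp [hψ]
  rw [hs1] at hd1
  rw [hs2] at hd2
  have hd := (norm_sub_le ((1 / (N : ℂ)) * ∑ n ∈ Icc 1 N, B n * ((P (a * n) - Q i (a * n) : ℝ) : ℂ))
    (b * (((1 / (a * N)) * ∫ v in (0 : ℝ)..(a * N), (P v - Q i v) : ℝ) : ℂ))).trans (add_le_add hd1 hd2)
  have hfin : A * (W * (m * ε + K ε * ψ i x)) + b' * (W * (ψ i x + m * ε)) =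
      (A + b') * W * (m * ε) + (A * K ε + b') * W * ψ i x := by ring
  linarith

end Pool.Agent.Y858.MC
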